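import Pool.Agent.N513.QM.Plane

/-! MP_ac6992_gt, Q1, in the negative: the mapping class group of the plane minus a Cantor set has
a finitely generated non-amenable subgroup all of whose homogeneous quasimorphisms are
homomorphisms. -/

set_option autoImplicit false

namespace Pool.Agent.Results.MP_ac6992_gt.NonamenableSubgroup

open Pool.Agent.H659R3.BigMCG Pool.Agent.N513.QM

theorem result :
    ∃ (C : PlaneCantorSet) (H : Subgroup (Map C.Compl)),
      Group.FG H ∧ ¬ IsAmenable H ∧ Subsingleton (QTilde H) :=
  main

end Pool.Agent.Results.MP_ac6992_gt.NonamenableSubgroup
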